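import Pool.Agent.helper48.AGR.Spec

/-!
# MP_def0df_al, row A1: the generation step
-/

set_option autoImplicit false

namespace Pool.Agent.AGR

open Monoid Function

/-- index type of the new letters -/
abbrev A1_J (S : Sys) : Type := {g : S.X // Cen S.w g ∧ ∀ a, g ≠ S.w a}

/-- index map for the domain -/
def A1_sp {J : Type} (n : J → ℕ) : (J ⊕ J) ⊕ ℕ → ℕ ⊕ J
  | Sum.inl (Sum.inl g) => Sum.inr g
  | Sum.inl (Sum.inr g) => Sum.inl (2 * n g)
  | Sum.inr k => Sum.inl (2 * k + 1)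

/-- index map for the range -/
def A1_sq {J : Type} (n : J → ℕ) : (J ⊕ J) ⊕ ℕ → ℕ ⊕ J
  | Sum.inl (Sum.inl g) => Sum.inl (2 * n g)
  | Sum.inl (Sum.inr g) => Sum.inr g
  | Sum.inr k => Sum.inl (2 * k + 1)

theorem A1_sp_injective {J : Type} (n : J → ℕ) (hn : Injective n) : Injective (A1_sp n) := by
  rintro ((a | a) | a) ((b | b) | b) h
  · have h1 : a = b := Sum.inr.inj h
    rw [h1]
  · exact absurd h Sum.inr_ne_inl
  · exact absurd h Sum.inr_ne_inl
  · exact absurd h Sum.inl_ne_inr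
  · have h1 : 2 * n a = 2 * n b := Sum.inl.inj h
    have h2 : a = b := hn (by omega)
    rw [h2]
  · have h1 : 2 * n a = 2 * b + 1 := Sum.inl.inj h
    omega
  · exact absurd h Sum.inl_ne_inr
  · have h1 : 2 * a + 1 = 2 * n b := Sum.inl.inj h
    omega
  · have h1 : 2 * a + 1 = 2 * b + 1 := Sum.inl.inj h
    have h2 : a = b := by omega
    rw [h2]

theorem A1_sq_injective {J : Type} (n : J → ℕ) (hn : Injective n) : Injective (A1_sq n) := by
  rintro ((a | a) | a) ((b | b) | b) h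
  · have h1 : 2 * n a = 2 * n b := Sum.inl.inj h
    have h2 : a = b := hn (by omega)
    rw [h2]
  · exact absurd h Sum.inl_ne_inr
  · have h1 : 2 * n a = 2 * b + 1 := Sum.inl.inj h
    omega
  · exact absurd h Sum.inr_ne_inl
  · have h1 : a = b := Sum.inr.inj h
    rw [h1]
  · exact absurd h Sum.inr_ne_inl
  · have h1 : 2 * a + 1 = 2 * n b := Sum.inl.inj h
    omega
  · exact absurd h Sum.inl_ne_inr
  · have h1 : 2 * a + 1 = 2 * b + 1 := Sum.inl.inj h
    have h2 : a = b := by omega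
    rw [h2]

theorem A1_countable_freeGroup (J : Type) [Countable J] : Countable (FreeGroup J) := by
  unfold FreeGroup
  infer_instance

theorem A1_g_injective {X : Type} [Group X] (w : Vt →* X) (hw : Injective w) (J : Type) :
    Injective (W.g : X →* W w J) := by
  refine inl_injective hw ?_
  intro a b h
  exact (Prod.mk.inj h).1

theorem A1 (hFA : FA_stmt) (hVGW : VGW_stmt) (hCNT : CNT_stmt) (hCJ : CJ_stmt) : A1_stmt := by
  intro S
  have hvinj : Injective S.v := by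
    intro a b h
    refine S.vg.inj ?_
    change S.p (S.v a) = S.p (S.v b)
    rw [h]
  have hwv : ∀ a, S.p (S.v a) = S.w a := fun _ => rfl
  have hwq : ∀ a, S.q (S.v a) = S.w a := fun a => (S.hv a).symm
  obtain ⟨n, hn⟩ : ∃ n : A1_J S → ℕ, Injective n := exists_injective_nat (A1_J S)
  obtain ⟨P, hP, Pg, Py, PF⟩ := hFA S.Γ S.X S.v S.w S.p ℕ (A1_J S) (A1_J S ⊕ A1_J S) ℕ S.e hvinj
    S.hp hwv S.fe (A1_sp n) (A1_sp_injective n hn) (MonoidHom.id _) (fun _ _ h => h) (fun _ => rfl)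
  obtain ⟨F, hF, Fg, Fy⟩ := hCJ S.X S.w (A1_J S) (fun g => g.1) S.vg (fun g => g.2.1)
    (fun g a => g.2.2 a)
  obtain ⟨Q, hQ, Qg, Qy, QF⟩ := hFA S.Γ S.X S.v S.w S.q ℕ (A1_J S) (A1_J S ⊕ A1_J S) ℕ S.f hvinj
    S.hq hwq S.ff (A1_sq n) (A1_sq_injective n hn) F hF Fg
  have Py1 : ∀ g : A1_J S, P (W.y (Sum.inl g)) = W.y g := fun g => Py (Sum.inl g)
  have Py2 : ∀ g : A1_J S, P (W.y (Sum.inr g)) = W.g (S.e (2 * n g)) := fun g => Py (Sum.inr g)
  have Qy1 : ∀ g : A1_J S, Q (W.y (Sum.inl g)) = W.g (S.f (2 * n g)) :=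
    fun g => (Qy (Sum.inl g)).trans (Fg _)
  have Qy2 : ∀ g : A1_J S, Q (W.y (Sum.inr g)) = W.y g * W.g g.1 * (W.y g)⁻¹ :=
    fun g => (Qy (Sum.inr g)).trans (Fy g)
  have : Countable (FreeGroup (A1_J S)) := A1_countable_freeGroup _
  have hcX : Countable (W S.w (A1_J S)) := by
    have : Countable Vt := inferInstanceAs (Countable ℚ)
    exact hCNT S.X (Vt × FreeGroup (A1_J S)) Vt S.w (MonoidHom.inl Vt (FreeGroup (A1_J S)))
  have hVG : VG (P.comp ((W.g : S.Γ →* W S.v (A1_J S ⊕ A1_J S)).comp S.v)) := by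
    have h1 := hVGW S.X S.w (A1_J S) S.vg
    have h2 : P.comp ((W.g : S.Γ →* W S.v (A1_J S ⊕ A1_J S)).comp S.v) =
        (W.g : S.X →* W S.w (A1_J S)).comp S.w := by
      ext a
      exact Pg (S.v a)
    rw [h2]
    exact h1
  let T : Sys :=
    { X := W S.w (A1_J S)
      Γ := W S.v (A1_J S ⊕ A1_J S)
      cX := hcX
      v := (W.g : S.Γ →* W S.v (A1_J S ⊕ A1_J S)).comp S.v
      p := P
      q := Q
      hp := hP
      hq := hQ
      hv := by
        intro a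
        change P (W.g (S.v a)) = Q (W.g (S.v a))
        rw [Pg, Qg, S.hv]
      vg := hVG
      e := _
      f := _
      fe := PF
      ff := QF }
  let m : Mor S T :=
    { j := W.g
      c := W.g
      hj := A1_g_injective S.w S.vg.inj (A1_J S)
      jp := Pg
      jq := Qg
      jv := fun _ => rfl }
  have hTw : ∀ a, T.w a = W.g (S.w a) := fun a => Pg (S.v a)
  refine ⟨T, m, ?_, fun i => ⟨2 * i + 1, rfl⟩, fun i => ⟨2 * i + 1, Fg (S.f (2 * i + 1))⟩⟩
  intro g hg1 hg2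
  refine ⟨2 * n ⟨g, hg1, hg2⟩, 2 * n ⟨g, hg1, hg2⟩, (W.y ⟨g, hg1, hg2⟩ : W S.w (A1_J S)),
    (W.y (Sum.inr ⟨g, hg1, hg2⟩) : W S.v (A1_J S ⊕ A1_J S)),
    (W.y (Sum.inl ⟨g, hg1, hg2⟩) : W S.v (A1_J S ⊕ A1_J S)), ?_, Py2 _, Qy2 _, Py1 _, Qy1 _⟩
  intro a
  rw [hTw]
  exact (W.comm a _).symm

end Pool.Agent.AGR
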